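import Pool.Agent.Work.MP_476501_co.Final
import Pool.Agent.Work.MP_476501_co.Brouwer

/-!
# MP_476501_co, Q1: near-exact colour-vector matchings in an edge-coloured even cycle
-/

set_option autoImplicit false

namespace Pool.Agent.Results.MP_476501_co.NearExact

open Finset
open _root_.MP_476501_co

/-- **Full answer to Q1 (positive).**  The cycle of length `2ℓ` has vertices `0, …, 2ℓ - 1` and
edges `e_1, …, e_{2ℓ}`, where `e_i` joins `i - 1` and `i mod 2ℓ`; `c i` is the colour of `e_i`. -/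
theorem result : ∀ h : ℕ, 3 ≤ h → ∀ ℓ : ℕ, 1 ≤ ℓ → ∀ c : ℕ → Fin h, ∀ k : Fin h → ℤ,
    (∃ lam : ℝ, 0 ≤ lam ∧ lam ≤ 1 ∧
      ∀ i, (k i : ℝ) = lam * cvec c (M0 ℓ) i + (1 - lam) * cvec c (M1 ℓ) i) →
    ∃ M : Finset ℕ, IsMatching ℓ M ∧ (ℓ : ℤ) - h + 2 ≤ M.card ∧
      (∀ i, (cvec c M i : ℤ) ≤ k i) ∧ ∑ i, |(cvec c M i : ℤ) - k i| ≤ (h : ℤ) - 2 :=
  main (fun n f hf hmap => Pool.Agent.Brouwer.brouwer_cube n f hf hmap)

end Pool.Agent.Results.MP_476501_co.NearExact
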